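import Pool.Agent.N939.ME.Stm

/-!
# Project ME (helper939): backward killed resolvent against the full resolvent (helper717)
-/

set_option autoImplicit false
set_option linter.unusedSectionVars false
open MeasureTheory ProbabilityTheory Filter Topology Finset
open scoped Classical

namespace Pool.Agent.N717.ME

open Pool.Agent.N939.ME

/-- bounded nonnegative measurable weights -/
structure Wt {X : Type} [MeasurableSpace X] (u : X → ℝ) : Prop where
  m : Measurable u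
  n : ∀ x, 0 ≤ u x
  b : ∃ C : ℝ, ∀ x, u x ≤ C

theorem Wt.ind {X : Type} [MeasurableSpace X] {u : X → ℝ} (h : Wt u) {B : Set X}
    (hB : MeasurableSet B) : Wt (B.indicator u) :=
  ⟨h.m.indicator hB, fun x => Set.indicator_nonneg (fun x _ => h.n x) x, by
    obtain ⟨C, hC⟩ := h.b
    exact ⟨C, fun x => (Set.indicator_le_self' (fun _ _ => h.n _) x).trans (hC x)⟩⟩

theorem Wt.one {X : Type} [MeasurableSpace X] : Wt (1 : X → ℝ) :=
  ⟨measurable_one, fun _ => zero_le_one, 1, fun _ => le_refl _⟩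

theorem Wt.mul {S : Type} [MeasurableSpace S] {u : S → ℝ} {w : ℝ → ℝ} (hu : Wt u) (hw : Wt w) :
    Wt (fun p : ℝ × S => u p.2 * w p.1) := by
  refine ⟨(hu.m.comp measurable_snd).mul (hw.m.comp measurable_fst),
    fun p => mul_nonneg (hu.n _) (hw.n _), ?_⟩
  obtain ⟨C, hC⟩ := hu.b
  obtain ⟨D, hD⟩ := hw.b
  exact ⟨C * D, fun p => mul_le_mul (hC _) (hD _) (hw.n _) ((hu.n _).trans (hC p.2))⟩

theorem Wt.int {X : Type} [MeasurableSpace X] {μ : Measure X} {v : X → ℝ} (hv : Wt v) {h : X → ℝ}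
    (hh : Integrable h μ) : Integrable (fun x => v x * h x) μ := by
  obtain ⟨C, hC⟩ := hv.b
  exact hh.bdd_mul hv.m.aestronglyMeasurable
    (ae_of_all _ fun x => by rw [Real.norm_of_nonneg (hv.n x)]; exact hC x)

theorem Wt.int1 {X : Type} [MeasurableSpace X] {μ : Measure X} [IsFiniteMeasure μ] {v : X → ℝ}
    (hv : Wt v) : Integrable v μ := by
  have h := hv.int (integrable_const (μ := μ) (1 : ℝ))
  simpa using h

section

variable {S : Type} [MeasurableSpace S] {Q : Kernel S S} [IsMarkovKernel Q] {ν : Measure S}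
  [IsProbabilityMeasure ν]

theorem Wt.TT (hTT : S_TT) (hQ : ν.bind Q = ν) {u : S → ℝ} (hu : Wt u) : Wt (TT Q u) := by
  refine ⟨(hTT S Q ν hQ).1 u hu.m, fun x => integral_nonneg hu.n, ?_⟩
  obtain ⟨C, hC⟩ := hu.b
  refine ⟨C, fun x => ?_⟩
  have h := integral_mono_of_nonneg (μ := Q x) (ae_of_all _ hu.n) (integrable_const C)
    (ae_of_all _ hC)
  simpa [Pool.Agent.N939.ME.TT] using h

theorem TT_prod (hHAT : S_HAT) (hQ : ν.bind Q = ν) (u : S → ℝ) (w : ℝ → ℝ) (p : ℝ × S) :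
    TT (Qh Q) (fun p => u p.2 * w p.1) p = TT Q u p.2 * w p.1 := by
  obtain ⟨r, x⟩ := p
  rw [(hHAT S Q ν hQ).1]
  simp only
  rw [integral_mul_const]
  rfl

variable (ν) in
theorem ae01 : ∀ᵐ p ∂(nuh ν), 0 < p.1 ∧ p.1 < 1 := by
  have h : ∀ᵐ r ∂lam, 0 < r ∧ r < 1 :=
    ae_restrict_mem (μ := (volume : Measure ℝ)) (measurableSet_Ioo (a := (0:ℝ)) (b := 1))
  exact (Measure.quasiMeasurePreserving_fst (μ := lam) (ν := ν)).ae h

theorem ind1 (B : Set S) (x : S) : 0 ≤ B.indicator (1 : S → ℝ) x ∧ B.indicator (1 : S → ℝ) x ≤ 1 := by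
  by_cases h : x ∈ B
  · simp [h]
  · simp [h]

theorem memLp_ind {B : Set S} (hB : MeasurableSet B) {h : ℝ × S → ℝ} (hm : MemLp h 2 (nuh ν)) :
    MemLp (fun p => B.indicator (1 : S → ℝ) p.2 * h p) 2 (nuh ν) := by
  refine hm.of_le ?_ (ae_of_all _ fun p => ?_)
  · exact ((measurable_one.indicator hB).comp measurable_snd).aestronglyMeasurable.mul hm.1
  · rw [norm_mul, Real.norm_of_nonneg (ind1 B p.2).1]
    exact mul_le_of_le_one_left (norm_nonneg _) (ind1 B p.2).2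

theorem memLp_r {h : ℝ × S → ℝ} (hm : MemLp h 2 (nuh ν)) :
    MemLp (fun p => p.1 * h p) 2 (nuh ν) := by
  refine hm.of_le ?_ ?_
  · exact measurable_fst.aestronglyMeasurable.mul hm.1
  · filter_upwards [ae01 ν] with p hp
    rw [norm_mul, Real.norm_of_nonneg hp.1.le]
    exact mul_le_of_le_one_left (norm_nonneg _) hp.2.le

theorem memLp_cut {B : Set S} (hB : MeasurableSet B) {h : ℝ × S → ℝ} (hm : MemLp h 2 (nuh ν)) :
    MemLp (fun p => B.indicator (1 : S → ℝ) p.2 * (p.1 * h p)) 2 (nuh ν) :=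
  memLp_ind hB (memLp_r hm)

/-- one step of the backward recursion -/
theorem step (hHAT : S_HAT) (hBK1 : S_BK1) (hQ : ν.bind Q = ν) {a : ℝ × S → ℝ}
    (ha : MemLp a 2 (nuh ν)) {u : S → ℝ} (hu : Wt u) {w w' : ℝ → ℝ} (hw : Wt w) (hw' : Wt w')
    (hww : ∀ r, 0 < r → r < 1 → w r * r ^ 2 ≤ w' r) {B : Set S} (hB : MeasurableSet B) :
    ∫ p, u p.2 * w p.1 * (B.indicator 1 p.2 * (p.1 * bk (Qh Q) (nuh ν) a p)) ^ 2 ∂(nuh ν)
      ≤ ∫ p, TT Q (B.indicator u) p.2 * w' p.1 * a p ^ 2 ∂(nuh ν) := by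
  have hB1 := hBK1 (ℝ × S) (Qh Q) (nuh ν) (hHAT S Q ν hQ).2
  have hb : MemLp (bk (Qh Q) (nuh ν) a) 2 (nuh ν) := (hB1.1 a ha).2.1
  have hW := (hu.ind hB).mul hw'
  calc ∫ p, u p.2 * w p.1 * (B.indicator 1 p.2 * (p.1 * bk (Qh Q) (nuh ν) a p)) ^ 2 ∂(nuh ν)
      ≤ ∫ p, B.indicator u p.2 * w' p.1 * bk (Qh Q) (nuh ν) a p ^ 2 ∂(nuh ν) := by
        refine integral_mono_of_nonneg (ae_of_all _ fun p =>
          mul_nonneg (mul_nonneg (hu.n _) (hw.n _)) (sq_nonneg _)) (hW.int hb.integrable_sq) ?_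
        filter_upwards [ae01 ν] with p hp
        by_cases h : p.2 ∈ B
        · rw [Set.indicator_of_mem h, Set.indicator_of_mem h]
          have h1 := hww p.1 hp.1 hp.2
          have h2 : 0 ≤ u p.2 * bk (Qh Q) (nuh ν) a p ^ 2 := mul_nonneg (hu.n _) (sq_nonneg _)
          have h3 := mul_le_mul_of_nonneg_right h1 h2
          simp only [Pi.one_apply]
          nlinarith [h3]
        · rw [Set.indicator_of_notMem h, Set.indicator_of_notMem h]
          simp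
    _ ≤ ∫ p, TT (Qh Q) (fun p => B.indicator u p.2 * w' p.1) p * a p ^ 2 ∂(nuh ν) :=
        hB1.2.2.2.2.1 a _ ha hW.m hW.n hW.b
    _ = ∫ p, TT Q (B.indicator u) p.2 * w' p.1 * a p ^ 2 ∂(nuh ν) := by
        simp only [TT_prod hHAT hQ]

/-- first error -/
noncomputable def e1 (Q : Kernel S S) (ν : Measure S) (Ψ : ℝ × S → ℝ) (B : ℕ → Set S) :
    ℕ → ℝ × S → ℝ
  | 0 => fun _ => 0
  | t + 1 => fun p => (B (t + 1)).indicator 1 p.2 * (p.1 * bk (Qh Q) (nuh ν)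
      (fun p => ((B t)ᶜ).indicator 1 p.2 * Ψ p + e1 Q ν Ψ B t p) p)

/-- second error -/
noncomputable def e2 (Q : Kernel S S) (ν : Measure S) (Ψ : ℝ × S → ℝ) (B : ℕ → Set S) :
    ℕ → ℝ × S → ℝ
  | 0 => fun p => (B 0).indicator 1 p.2 * (p.1 * bk (Qh Q) (nuh ν) Ψ p)
  | t + 1 => fun p => (B (t + 1)).indicator 1 p.2 *
      (p.1 * bk (Qh Q) (nuh ν) (e2 Q ν Ψ B t) p)

theorem memLp_bk (hHAT : S_HAT) (hBK1 : S_BK1) (hQ : ν.bind Q = ν) {a : ℝ × S → ℝ}
    (ha : MemLp a 2 (nuh ν)) : MemLp (bk (Qh Q) (nuh ν) a) 2 (nuh ν) :=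
  ((hBK1 (ℝ × S) (Qh Q) (nuh ν) (hHAT S Q ν hQ).2).1 a ha).2.1

theorem memLp_e1 (hHAT : S_HAT) (hBK1 : S_BK1) (hQ : ν.bind Q = ν) {Ψ : ℝ × S → ℝ}
    (hΨ : MemLp Ψ 2 (nuh ν)) {B : ℕ → Set S} (hB : ∀ t, MeasurableSet (B t)) (t : ℕ) :
    MemLp (e1 Q ν Ψ B t) 2 (nuh ν) := by
  induction t with
  | zero => exact MemLp.zero
  | succ t ih =>
    exact memLp_cut (hB _) (memLp_bk hHAT hBK1 hQ ((memLp_ind (hB t).compl hΨ).add ih))

theorem memLp_e2 (hHAT : S_HAT) (hBK1 : S_BK1) (hQ : ν.bind Q = ν) {Ψ : ℝ × S → ℝ}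
    (hΨ : MemLp Ψ 2 (nuh ν)) {B : ℕ → Set S} (hB : ∀ t, MeasurableSet (B t)) (t : ℕ) :
    MemLp (e2 Q ν Ψ B t) 2 (nuh ν) := by
  induction t with
  | zero => exact memLp_cut (hB _) (memLp_bk hHAT hBK1 hQ hΨ)
  | succ t ih => exact memLp_cut (hB _) (memLp_bk hHAT hBK1 hQ ih)

theorem e1_off (Ψ : ℝ × S → ℝ) (B : ℕ → Set S) (t : ℕ) (p : ℝ × S) (hp : p.2 ∉ B t) :
    e1 Q ν Ψ B t p = 0 := by
  cases t with
  | zero => rfl
  | succ t =>
    unfold e1
    rw [Set.indicator_of_notMem hp, zero_mul]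

/-- main recursive estimate -/
theorem key (hHAT : S_HAT) (hTT : S_TT) (hBK1 : S_BK1) (hQ : ν.bind Q = ν) {Ψ : ℝ × S → ℝ}
    (hΨ : MemLp Ψ 2 (nuh ν)) {B : ℕ → Set S} (hB : ∀ t, MeasurableSet (B t)) (t : ℕ)
    {u : S → ℝ} (hu : Wt u) {w w' : ℝ → ℝ} (hw : Wt w) (hw' : Wt w')
    (hww : ∀ r, 0 < r → r < 1 → w r * r ^ 2 ≤ w' r) {K : ℝ}
    (hK : ∀ᵐ x ∂ν, x ∉ B t → ∫ r, w' r * Ψ (r, x) ^ 2 ∂lam ≤ K) :
    ∫ p, u p.2 * w p.1 * e1 Q ν Ψ B (t + 1) p ^ 2 ∂(nuh ν) ≤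
      K * ∫ x, ((B t)ᶜ).indicator (TT Q ((B (t + 1)).indicator u)) x ∂ν +
        ∫ p, TT Q ((B (t + 1)).indicator u) p.2 * w' p.1 * e1 Q ν Ψ B t p ^ 2 ∂(nuh ν) := by
  have h1 := memLp_e1 hHAT hBK1 hQ hΨ hB t
  have h2 := step hHAT hBK1 hQ ((memLp_ind (hB t).compl hΨ).add h1) hu hw hw' hww (hB (t + 1))
  refine h2.trans ?_
  have hv : Wt (TT Q ((B (t + 1)).indicator u)) := (hu.ind (hB _)).TT hTT hQ
  set v := TT Q ((B (t + 1)).indicator u) with hvdef
  have hI1 : Integrable (fun p => v p.2 * w' p.1 * (((B t)ᶜ).indicator 1 p.2 * Ψ p ^ 2))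
      (nuh ν) := by
    refine (hv.mul hw').int ?_
    have h3 : Wt (fun p : ℝ × S => ((B t)ᶜ).indicator 1 p.2 * (1 : ℝ → ℝ) p.1) :=
      (Wt.one.ind (hB t).compl).mul Wt.one
    refine (h3.int hΨ.integrable_sq).congr (ae_of_all _ fun p => ?_)
    simp
  have hI2 : Integrable (fun p => v p.2 * w' p.1 * e1 Q ν Ψ B t p ^ 2) (nuh ν) :=
    (hv.mul hw').int h1.integrable_sq
  have h4 : ∫ p, v p.2 * w' p.1 *
        ((fun p => ((B t)ᶜ).indicator (1 : S → ℝ) p.2 * Ψ p) + e1 Q ν Ψ B t) p ^ 2 ∂(nuh ν) =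
      ∫ p, v p.2 * w' p.1 * (((B t)ᶜ).indicator 1 p.2 * Ψ p ^ 2) ∂(nuh ν) +
        ∫ p, v p.2 * w' p.1 * e1 Q ν Ψ B t p ^ 2 ∂(nuh ν) := by
    rw [← integral_add hI1 hI2]
    refine integral_congr_ae (ae_of_all _ fun p => ?_)
    simp only [Pi.add_apply]
    by_cases hp : p.2 ∈ B t
    · rw [Set.indicator_of_notMem (by simpa using hp)]
      ring
    · rw [e1_off Ψ B t p hp, Set.indicator_of_mem (by simpa using hp)]
      simp only [Pi.one_apply]
      ring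
  rw [h4]
  refine add_le_add_left ?_ _ |>.trans_eq rfl
  unfold nuh at hI1 ⊢
  rw [integral_prod_symm _ hI1]
  have h5 : ∀ x, ∫ r, v x * w' r * (((B t)ᶜ).indicator (1 : S → ℝ) x * Ψ (r, x) ^ 2) ∂lam =
      ((B t)ᶜ).indicator v x * ∫ r, w' r * Ψ (r, x) ^ 2 ∂lam := by
    intro x
    rw [← integral_const_mul]
    refine integral_congr_ae (ae_of_all _ fun r => ?_)
    by_cases hx : x ∈ B t
    · rw [Set.indicator_of_notMem (by simpa using hx), Set.indicator_of_notMem (by simpa using hx)]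
      ring
    · rw [Set.indicator_of_mem (by simpa using hx), Set.indicator_of_mem (by simpa using hx)]
      simp only [Pi.one_apply]
      ring
  simp only [h5]
  rw [← integral_const_mul]
  have hvi := hv.ind (hB t).compl
  refine integral_mono_of_nonneg (ae_of_all _ fun x => mul_nonneg (hvi.n x)
    (integral_nonneg fun r => mul_nonneg (hw'.n _) (sq_nonneg _)))
    (hvi.int1.const_mul K) ?_
  filter_upwards [hK] with x hx
  by_cases h : x ∈ B t
  · rw [Set.indicator_of_notMem (by simpa using h)]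
    simp
  · rw [mul_comm]
    exact mul_le_mul_of_nonneg_right (hx h) (hvi.n x)

/-- weak bounds (a), (b) -/
theorem weak (hHAT : S_HAT) (hTT : S_TT) (hBK1 : S_BK1) (hQ : ν.bind Q = ν) {Ψ : ℝ × S → ℝ}
    (hΨ : MemLp Ψ 2 (nuh ν)) {B : ℕ → Set S} (hB : ∀ t, MeasurableSet (B t))
    {w : ℝ → ℝ} (hw : Wt w) {K : ℝ} (hK0 : 0 ≤ K)
    (hK : ∀ t, ∀ᵐ x ∂ν, x ∉ B t → ∫ r, w r * Ψ (r, x) ^ 2 ∂lam ≤ K) (t : ℕ) :
    ∀ u : S → ℝ, Wt u → ∫ p, u p.2 * w p.1 * e1 Q ν Ψ B t p ^ 2 ∂(nuh ν) ≤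
      K * ∫ x, (B t).indicator u x ∂ν := by
  induction t with
  | zero =>
    intro u hu
    have h1 : ∫ p, u p.2 * w p.1 * e1 Q ν Ψ B 0 p ^ 2 ∂(nuh ν) = 0 := by
      simp [e1]
    rw [h1]
    exact mul_nonneg hK0 (integral_nonneg (hu.ind (hB 0)).n)
  | succ t ih =>
    intro u hu
    have hv : Wt (TT Q ((B (t + 1)).indicator u)) := (hu.ind (hB _)).TT hTT hQ
    refine (key hHAT hTT hBK1 hQ hΨ hB t hu hw hw ?_ (hK t)).trans ?_
    · intro r h0 h1
      exact mul_le_of_le_one_right (hw.n r) (by nlinarith)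
    · refine (add_le_add_right (ih _ hv) _).trans ?_
      rw [← mul_add, ← integral_add (hv.ind (hB t).compl).int1 (hv.ind (hB t)).int1]
      have h2 : ∫ x, (((B t)ᶜ).indicator (TT Q ((B (t + 1)).indicator u)) x +
          (B t).indicator (TT Q ((B (t + 1)).indicator u)) x) ∂ν =
          ∫ x, (B (t + 1)).indicator u x ∂ν := by
        rw [← ((hTT S Q ν hQ).2.1 _ (hu.ind (hB (t + 1))).int1).2.1]
        refine integral_congr_ae (ae_of_all _ fun x => ?_)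
        by_cases h : x ∈ B t <;> simp [h]
      rw [h2]

theorem memLp_thb (hBK1 : S_BK1) (hQ : ν.bind Q = ν) {B : ℕ → Set S}
    (hB : ∀ t, MeasurableSet (B t)) (ρ : ℝ) (t : ℕ) :
    MemLp (thb Q ν ρ B t) 2 ν ∧
      MemLp (fun y => ((B t)ᶜ).indicator 1 y + ρ * thb Q ν ρ B t y) 2 ν := by
  have h0 : ∀ t, MemLp (((B t)ᶜ).indicator (1 : S → ℝ)) 2 ν := by
    intro t
    refine MemLp.of_bound (measurable_one.indicator (hB t).compl).aestronglyMeasurable 1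
      (ae_of_all _ fun x => ?_)
    rw [Real.norm_of_nonneg (ind1 _ x).1]
    exact (ind1 _ x).2
  induction t with
  | zero =>
    refine ⟨MemLp.zero, (h0 0).add ?_⟩
    have : (fun y : S => ρ * thb Q ν ρ B 0 y) = fun _ => 0 := by
      funext y
      simp [thb]
    rw [this]
    exact MemLp.zero
  | succ t ih =>
    have h1 : MemLp (thb Q ν ρ B (t + 1)) 2 ν := by
      unfold thb
      exact (((hBK1 S Q ν hQ).1 _ ih.2).2.1).indicator (hB _)
    exact ⟨h1, (h0 _).add (h1.const_mul ρ)⟩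

/-- weak bound (c) -/
theorem weakc (hHAT : S_HAT) (hTT : S_TT) (hBK1 : S_BK1) (hQ : ν.bind Q = ν) {Ψ : ℝ × S → ℝ}
    (hΨ : MemLp Ψ 2 (nuh ν)) {B : ℕ → Set S} (hB : ∀ t, MeasurableSet (B t))
    {M r0 : ℝ} (hM : 0 ≤ M) (hr0 : 0 ≤ r0) (hr1 : r0 < 1)
    (hK : ∀ t, ∀ᵐ x ∂ν, x ∉ B t → ∫ r, (Set.Iic r0).indicator 1 r * Ψ (r, x) ^ 2 ∂lam ≤ M)
    (t : ℕ) :
    ∀ u : S → ℝ, Wt u →
      ∫ p, u p.2 * (Set.Iic r0).indicator 1 p.1 * e1 Q ν Ψ B t p ^ 2 ∂(nuh ν) ≤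
      M * ∫ x, u x * thb Q ν (r0 ^ 2) B t x ∂ν := by
  have hw : Wt ((Set.Iic r0).indicator (1 : ℝ → ℝ)) := Wt.one.ind measurableSet_Iic
  induction t with
  | zero =>
    intro u hu
    have h1 : ∫ p, u p.2 * (Set.Iic r0).indicator 1 p.1 * e1 Q ν Ψ B 0 p ^ 2 ∂(nuh ν) = 0 := by
      simp [e1]
    have h2 : ∫ x, u x * thb Q ν (r0 ^ 2) B 0 x ∂ν = 0 := by
      simp [thb]
    rw [h1, h2, mul_zero]
  | succ t ih =>
    intro u hu
    have hv : Wt (TT Q ((B (t + 1)).indicator u)) := (hu.ind (hB _)).TT hTT hQ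
    have hw' : Wt (fun r => r0 ^ 2 * (Set.Iic r0).indicator (1 : ℝ → ℝ) r) := by
      refine ⟨hw.m.const_mul _, fun r => mul_nonneg (sq_nonneg _) (hw.n r), ?_⟩
      obtain ⟨C, hC⟩ := hw.b
      exact ⟨r0 ^ 2 * C, fun r => mul_le_mul_of_nonneg_left (hC r) (sq_nonneg _)⟩
    have hK' : ∀ᵐ x ∂ν, x ∉ B t →
        ∫ r, (r0 ^ 2 * (Set.Iic r0).indicator (1 : ℝ → ℝ) r) * Ψ (r, x) ^ 2 ∂lam ≤ r0 ^ 2 * M := by
      filter_upwards [hK t] with x hx h
      have h1 : ∫ r, (r0 ^ 2 * (Set.Iic r0).indicator (1 : ℝ → ℝ) r) * Ψ (r, x) ^ 2 ∂lam =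
          r0 ^ 2 * ∫ r, (Set.Iic r0).indicator 1 r * Ψ (r, x) ^ 2 ∂lam := by
        rw [← integral_const_mul]
        refine integral_congr_ae (ae_of_all _ fun r => ?_)
        simp only
        ring
      rw [h1]
      exact mul_le_mul_of_nonneg_left (hx h) (sq_nonneg _)
    refine (key hHAT hTT hBK1 hQ hΨ hB t hu hw hw' ?_ hK').trans ?_
    · intro r h0 h1
      by_cases h : r ≤ r0
      · rw [Set.indicator_of_mem (by simpa using h)]
        simp only [Pi.one_apply]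
        nlinarith
      · rw [Set.indicator_of_notMem (by simpa using h)]
        simp
    · set v := TT Q ((B (t + 1)).indicator u) with hvdef
      have h1 : ∫ p, v p.2 * (r0 ^ 2 * (Set.Iic r0).indicator (1 : ℝ → ℝ) p.1) *
          e1 Q ν Ψ B t p ^ 2 ∂(nuh ν) = r0 ^ 2 *
          ∫ p, v p.2 * (Set.Iic r0).indicator 1 p.1 * e1 Q ν Ψ B t p ^ 2 ∂(nuh ν) := by
        rw [← integral_const_mul]
        refine integral_congr_ae (ae_of_all _ fun r => ?_)
        simp only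
        ring
      rw [h1]
      have h2 := mul_le_mul_of_nonneg_left (ih v hv) (sq_nonneg r0)
      refine (add_le_add_right h2 _).trans ?_
      have hth := memLp_thb hBK1 hQ hB (r0 ^ 2) t
      have hbk := (hBK1 S Q ν hQ).1 _ hth.2
      have h3 : ∫ x, u x * thb Q ν (r0 ^ 2) B (t + 1) x ∂ν =
          ∫ x, (((B t)ᶜ).indicator 1 x + r0 ^ 2 * thb Q ν (r0 ^ 2) B t x) * v x ∂ν := by
        have hu2 : MemLp ((B (t + 1)).indicator u) 2 ν := by
          obtain ⟨C, hC⟩ := (hu.ind (hB (t + 1))).b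
          refine MemLp.of_bound (hu.ind (hB (t + 1))).m.aestronglyMeasurable C
            (ae_of_all _ fun x => ?_)
          rw [Real.norm_of_nonneg ((hu.ind (hB (t + 1))).n x)]
          exact hC x
        rw [← hbk.2.2 _ (hu.ind (hB (t + 1))).m hu2]
        refine integral_congr_ae (ae_of_all _ fun x => ?_)
        simp only [thb]
        by_cases h : x ∈ B (t + 1)
        · rw [Set.indicator_of_mem h, Set.indicator_of_mem h]
          ring
        · rw [Set.indicator_of_notMem h, Set.indicator_of_notMem h]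
          ring
      rw [h3]
      have hI1 : Integrable (fun x => ((B t)ᶜ).indicator v x) ν := (hv.ind (hB t).compl).int1
      have hI2 : Integrable (fun x => v x * thb Q ν (r0 ^ 2) B t x) ν :=
        hv.int (hth.1.integrable one_le_two)
      have h4 : ∫ x, (((B t)ᶜ).indicator 1 x + r0 ^ 2 * thb Q ν (r0 ^ 2) B t x) * v x ∂ν =
          ∫ x, ((B t)ᶜ).indicator v x ∂ν +
            r0 ^ 2 * ∫ x, v x * thb Q ν (r0 ^ 2) B t x ∂ν := by
        rw [← integral_const_mul, ← integral_add hI1 (hI2.const_mul _)]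
        refine integral_congr_ae (ae_of_all _ fun x => ?_)
        by_cases h : x ∈ B t
        · simp only [Set.mem_compl_iff, h, not_true_eq_false, not_false_eq_true,
            Set.indicator_of_notMem]
          ring
        · simp only [Set.mem_compl_iff, h, not_false_eq_true, Set.indicator_of_mem, Pi.one_apply]
          ring
      rw [h4]
      have h5 : 0 ≤ ∫ x, ((B t)ᶜ).indicator v x ∂ν := integral_nonneg (hv.ind (hB t).compl).n
      have h6 : r0 ^ 2 ≤ 1 := by nlinarith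
      have h7 : r0 ^ 2 * M * ∫ x, ((B t)ᶜ).indicator v x ∂ν ≤
          M * ∫ x, ((B t)ᶜ).indicator v x ∂ν := by
        refine mul_le_mul_of_nonneg_right ?_ h5
        exact mul_le_of_le_one_left hM h6
      nlinarith [h7]

/-- strong bound for the second error -/
theorem strong (hHAT : S_HAT) (hTT : S_TT) (hBK1 : S_BK1) (hQ : ν.bind Q = ν) {Ψ : ℝ × S → ℝ}
    (hΨ : MemLp Ψ 2 (nuh ν)) {B : ℕ → Set S} (hB : ∀ t, MeasurableSet (B t)) (t : ℕ) :
    ∀ w : ℝ → ℝ, Wt w → ∫ p, w p.1 * e2 Q ν Ψ B t p ^ 2 ∂(nuh ν) ≤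
      ∫ p, w p.1 * p.1 ^ (2 * (t + 1)) * Ψ p ^ 2 ∂(nuh ν) := by
  have hs : ∀ (a : ℝ × S → ℝ), MemLp a 2 (nuh ν) → ∀ (w : ℝ → ℝ), Wt w → ∀ t : ℕ,
      Wt (fun r => w r * (max 0 (min 1 r)) ^ 2) ∧
      ∫ p, w p.1 * ((B t).indicator 1 p.2 * (p.1 * bk (Qh Q) (nuh ν) a p)) ^ 2 ∂(nuh ν) ≤
        ∫ p, w p.1 * (max 0 (min 1 p.1)) ^ 2 * a p ^ 2 ∂(nuh ν) := by
    intro a ha w hw t
    have hc0 : ∀ r : ℝ, 0 ≤ max 0 (min 1 r) := fun r => le_max_left _ _
    have hc1 : ∀ r : ℝ, max 0 (min 1 r) ≤ 1 := fun r => max_le zero_le_one (min_le_left _ _)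
    have hw' : Wt (fun r => w r * (max 0 (min 1 r)) ^ 2) := by
      refine ⟨hw.m.mul ((measurable_const.max (measurable_const.min measurable_id)).pow_const 2),
        fun r => mul_nonneg (hw.n r) (sq_nonneg _), ?_⟩
      obtain ⟨C, hC⟩ := hw.b
      refine ⟨C, fun r => ?_⟩
      have h1 : (max 0 (min 1 r)) ^ 2 ≤ 1 := by nlinarith [hc0 r, hc1 r]
      exact (mul_le_of_le_one_right (hw.n r) h1).trans (hC r)
    refine ⟨hw', ?_⟩
    have h1 := step hHAT hBK1 hQ ha (Wt.one (X := S)) hw hw' ?_ (hB t)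
    · simp only [Pi.one_apply, one_mul] at h1
      refine h1.trans ?_
      have hv : Wt (TT Q ((B t).indicator 1)) := (Wt.one.ind (hB _)).TT hTT hQ
      refine integral_mono_of_nonneg (ae_of_all _ fun p => mul_nonneg (mul_nonneg (hv.n _)
        (hw'.n _)) (sq_nonneg _)) ?_ (ae_of_all _ fun p => ?_)
      · have h2 : Wt (fun p : ℝ × S => (1 : S → ℝ) p.2 *
            (fun r => w r * (max 0 (min 1 r)) ^ 2) p.1) := Wt.one.mul hw'
        refine (h2.int ha.integrable_sq).congr (ae_of_all _ fun p => ?_)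
        simp
      · have h3 : TT Q ((B t).indicator 1) p.2 ≤ 1 := by
          have h4 := integral_mono_of_nonneg (μ := Q p.2)
            (ae_of_all _ (Wt.one.ind (hB t)).n) (integrable_const (1 : ℝ))
            (ae_of_all _ fun x => (ind1 (B t) x).2)
          simpa [Pool.Agent.N939.ME.TT] using h4
        have h5 : 0 ≤ w p.1 * (max 0 (min 1 p.1)) ^ 2 * a p ^ 2 :=
          mul_nonneg (hw'.n _) (sq_nonneg _)
        calc TT Q ((B t).indicator 1) p.2 * (w p.1 * (max 0 (min 1 p.1)) ^ 2) * a p ^ 2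
            = TT Q ((B t).indicator 1) p.2 * (w p.1 * (max 0 (min 1 p.1)) ^ 2 * a p ^ 2) := by
              ring
          _ ≤ w p.1 * (max 0 (min 1 p.1)) ^ 2 * a p ^ 2 := mul_le_of_le_one_left h5 h3
    · intro r h0 h1
      rw [min_eq_right h1.le, max_eq_right h0.le]
  induction t with
  | zero =>
    intro w hw
    refine (hs Ψ hΨ w hw 0).2.trans (le_of_eq (integral_congr_ae ?_))
    filter_upwards [ae01 ν] with p hp
    rw [min_eq_right hp.2.le, max_eq_right hp.1.le]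
  | succ t ih =>
    intro w hw
    obtain ⟨h1, h2⟩ := hs _ (memLp_e2 hHAT hBK1 hQ hΨ hB t) w hw (t + 1)
    refine h2.trans ((ih _ h1).trans (le_of_eq (integral_congr_ae ?_)))
    filter_upwards [ae01 ν] with p hp
    rw [min_eq_right hp.2.le, max_eq_right hp.1.le]
    ring

theorem memLp_Gst (hHAT : S_HAT) (hBK1 : S_BK1) (hQ : ν.bind Q = ν) {f : S → ℝ}
    (hf : MemLp f 2 ν) {B : ℕ → Set S} (hB : ∀ t, MeasurableSet (B t)) (t : ℕ) :
    MemLp (Gst Q ν f B t) 2 (nuh ν) := by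
  have hf2 : MemLp (fun p : ℝ × S => f p.2) 2 (nuh ν) :=
    hf.comp_measurePreserving (measurePreserving_snd (μ := lam) (ν := ν))
  induction t with
  | zero =>
    have h1 := memLp_ind (hB 0) hf2
    refine h1.congr_norm ?_ (ae_of_all _ fun p => ?_) |>.ae_eq Filter.EventuallyEq.rfl
    · have : Gst Q ν f B 0 = fun p => (B 0).indicator 1 p.2 * f p.2 := by
        funext p
        simp only [Gst]
        by_cases h : p.2 ∈ B 0 <;> simp [h]
      rw [this]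
      exact h1.1
    · simp only [Gst]
      by_cases h : p.2 ∈ B 0 <;> simp [h]
  | succ t ih => exact memLp_ind (hB _) (hf2.add (memLp_r (memLp_bk hHAT hBK1 hQ ih)))

theorem decomp (hHAT : S_HAT) (hBK1 : S_BK1) (hQ : ν.bind Q = ν) {f : S → ℝ}
    {Φ Ψ : ℝ × S → ℝ} (hR : Res Q ν f Φ Ψ) {B : ℕ → Set S} (hB : ∀ t, MeasurableSet (B t))
    (t : ℕ) : ∀ᵐ p ∂(nuh ν), (B t).indicator 1 p.2 * Ψ p - Gst Q ν f B t p =
      e1 Q ν Ψ B t p + e2 Q ν Ψ B t p := by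
  induction t with
  | zero =>
    filter_upwards [hR.eΨ] with p hp
    simp only [Gst, e1, e2]
    by_cases h : p.2 ∈ B 0
    · simp only [h, Set.indicator_of_mem, Pi.one_apply]
      linarith
    · simp [h]
  | succ t ih =>
    have hB1 := hBK1 (ℝ × S) (Qh Q) (nuh ν) (hHAT S Q ν hQ).2
    have m1 : MemLp (fun p => ((B t)ᶜ).indicator (1 : S → ℝ) p.2 * Ψ p + e1 Q ν Ψ B t p) 2
        (nuh ν) := (memLp_ind (hB t).compl hR.lΨ).add (memLp_e1 hHAT hBK1 hQ hR.lΨ hB t)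
    have m2 := memLp_e2 hHAT hBK1 hQ hR.lΨ hB t
    have m3 := memLp_Gst hHAT hBK1 hQ hR.lf hB t
    have h1 := hB1.2.2.2.2.2.1 _ _ m1 m2
    have h2 := hB1.2.2.2.2.2.1 _ _ (m1.add m2) m3
    have h3 := hB1.2.2.2.2.2.2.2.1 Ψ (fun p => ((fun p => ((B t)ᶜ).indicator (1 : S → ℝ) p.2 * Ψ p
        + e1 Q ν Ψ B t p) + e2 Q ν Ψ B t) p + Gst Q ν f B t p) (by
      filter_upwards [ih] with p hp
      simp only [Pi.add_apply]
      by_cases h : p.2 ∈ B t
      · simp only [h, Set.indicator_of_mem, Pi.one_apply, Set.mem_compl_iff, not_true_eq_false,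
          not_false_eq_true, Set.indicator_of_notMem] at hp ⊢
        linarith
      · simp only [h, Set.indicator_of_mem, Pi.one_apply, Set.mem_compl_iff,
          not_false_eq_true, Set.indicator_of_notMem] at hp ⊢
        linarith)
    filter_upwards [hR.eΨ, h1, h2, h3] with p hp p1 p2 p3
    simp only [Gst, e1, e2]
    by_cases h : p.2 ∈ B (t + 1)
    · simp only [h, Set.indicator_of_mem, Pi.one_apply, one_mul]
      have h4 : bk (Qh Q) (nuh ν) Ψ p = bk (Qh Q) (nuh ν)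
          (fun p => ((B t)ᶜ).indicator (1 : S → ℝ) p.2 * Ψ p + e1 Q ν Ψ B t p) p +
          bk (Qh Q) (nuh ν) (e2 Q ν Ψ B t) p + bk (Qh Q) (nuh ν) (Gst Q ν f B t) p := by
        rw [p3, p2]
        exact congrArg (· + bk (Qh Q) (nuh ν) (Gst Q ν f B t) p) p1
      rw [hp, h4]
      ring
    · simp [h]

end

theorem zb (hHAT : S_HAT) (hTT : S_TT) (hBK1 : S_BK1) : S_ZB := by
  intro S _ Q _ ν _ hQ f Φ Ψ hR M ε r0 hM hε hr0 hr1 B hB hS A hA N
  have hΨ := hR.lΨ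
  have w1 : Wt ((Set.Ioi (0 : ℝ)).indicator (1 : ℝ → ℝ)) := Wt.one.ind measurableSet_Ioi
  have w2 : Wt ((Set.Ioi r0).indicator (1 : ℝ → ℝ)) := Wt.one.ind measurableSet_Ioi
  have w3 : Wt ((Set.Iic r0).indicator (1 : ℝ → ℝ)) := Wt.one.ind measurableSet_Iic
  have hsq : ∀ (c : ℝ) (x : S), ∫ r, (Set.Ioi c).indicator 1 r * Ψ (r, x) ^ 2 ∂lam =
      sqT c Ψ x := by
    intro c x
    unfold sqT
    refine integral_congr_ae (ae_of_all _ fun r => ?_)
    by_cases h : r ∈ Set.Ioi c <;> simp [h]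
  have k1 : ∀ t, ∀ᵐ x ∂ν, x ∉ B t →
      ∫ r, (Set.Ioi (0 : ℝ)).indicator 1 r * Ψ (r, x) ^ 2 ∂lam ≤ M := by
    intro t
    filter_upwards [hS t] with x hx h
    rw [hsq]
    exact (hx h).1
  have k2 : ∀ t, ∀ᵐ x ∂ν, x ∉ B t →
      ∫ r, (Set.Ioi r0).indicator 1 r * Ψ (r, x) ^ 2 ∂lam ≤ ε := by
    intro t
    filter_upwards [hS t] with x hx h
    rw [hsq]
    exact (hx h).2
  have hl01 : ∀ᵐ r ∂lam, 0 < r ∧ r < 1 :=
    ae_restrict_mem (μ := (volume : Measure ℝ)) (measurableSet_Ioo (a := (0:ℝ)) (b := 1))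
  have k3 : ∀ t, ∀ᵐ x ∂ν, x ∉ B t →
      ∫ r, (Set.Iic r0).indicator 1 r * Ψ (r, x) ^ 2 ∂lam ≤ M := by
    intro t
    have hI : ∀ᵐ x ∂ν, Integrable (fun r => Ψ (r, x) ^ 2) lam :=
      Integrable.prod_left_ae (μ := lam) (ν := ν) (f := fun p => Ψ p ^ 2) hΨ.integrable_sq
    filter_upwards [k1 t, hI] with x hx hi h
    refine le_trans ?_ (hx h)
    refine integral_mono_of_nonneg (ae_of_all _ fun r => mul_nonneg (w3.n r) (sq_nonneg _))
      (w1.int hi) ?_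
    filter_upwards [hl01] with r hr
    refine mul_le_mul_of_nonneg_right ?_ (sq_nonneg _)
    rw [Set.indicator_of_mem (s := Set.Ioi (0:ℝ)) hr.1]
    exact (ind1 _ r).2
  -- the bound for `e1`
  have b1 : ∀ t, ∫ p, e1 Q ν Ψ B t p ^ 2 ∂(nuh ν) ≤ M * ν.real (B t ∩ A) +
      ∫ x, (B t \ A).indicator (fun y => ε + M * thb Q ν (r0 ^ 2) B t y) x ∂ν := by
    intro t
    have hBA := (hB t).inter hA
    have hBd := (hB t).diff hA
    have u1 : Wt ((B t ∩ A).indicator (1 : S → ℝ)) := Wt.one.ind hBA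
    have u2 : Wt ((B t \ A).indicator (1 : S → ℝ)) := Wt.one.ind hBd
    have he := memLp_e1 hHAT hBK1 hQ hΨ hB t
    have i1 : Integrable (fun p => (B t ∩ A).indicator 1 p.2 * (Set.Ioi (0 : ℝ)).indicator 1 p.1 *
        e1 Q ν Ψ B t p ^ 2) (nuh ν) := (u1.mul w1).int he.integrable_sq
    have i2 : Integrable (fun p => (B t \ A).indicator 1 p.2 * (Set.Ioi r0).indicator 1 p.1 *
        e1 Q ν Ψ B t p ^ 2) (nuh ν) := (u2.mul w2).int he.integrable_sq
    have i3 : Integrable (fun p => (B t \ A).indicator 1 p.2 * (Set.Iic r0).indicator 1 p.1 *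
        e1 Q ν Ψ B t p ^ 2) (nuh ν) := (u2.mul w3).int he.integrable_sq
    have hsum : ∫ p, e1 Q ν Ψ B t p ^ 2 ∂(nuh ν) =
        ∫ p, (B t ∩ A).indicator 1 p.2 * (Set.Ioi (0 : ℝ)).indicator 1 p.1 *
          e1 Q ν Ψ B t p ^ 2 ∂(nuh ν) +
        (∫ p, (B t \ A).indicator 1 p.2 * (Set.Ioi r0).indicator 1 p.1 *
          e1 Q ν Ψ B t p ^ 2 ∂(nuh ν) +
        ∫ p, (B t \ A).indicator 1 p.2 * (Set.Iic r0).indicator 1 p.1 *
          e1 Q ν Ψ B t p ^ 2 ∂(nuh ν)) := by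
      have i23 : Integrable (fun p => (B t \ A).indicator 1 p.2 *
          (Set.Ioi r0).indicator 1 p.1 * e1 Q ν Ψ B t p ^ 2 + (B t \ A).indicator 1 p.2 *
          (Set.Iic r0).indicator 1 p.1 * e1 Q ν Ψ B t p ^ 2) (nuh ν) := i2.add i3
      rw [← integral_add i2 i3, ← integral_add i1 i23]
      refine integral_congr_ae ?_
      filter_upwards [ae01 ν] with p hp
      rw [Set.indicator_of_mem (s := Set.Ioi (0:ℝ)) hp.1]
      have h1 : (Set.Ioi r0).indicator (1 : ℝ → ℝ) p.1 + (Set.Iic r0).indicator 1 p.1 = 1 := by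
        by_cases h : p.1 ≤ r0
        · simp [h, not_lt.2 h]
        · simp [h, not_le.1 h]
      have h2 : (B t \ A).indicator 1 p.2 * (Set.Ioi r0).indicator 1 p.1 * e1 Q ν Ψ B t p ^ 2 +
          (B t \ A).indicator 1 p.2 * (Set.Iic r0).indicator 1 p.1 * e1 Q ν Ψ B t p ^ 2 =
          (B t \ A).indicator 1 p.2 * e1 Q ν Ψ B t p ^ 2 *
            ((Set.Ioi r0).indicator (1 : ℝ → ℝ) p.1 + (Set.Iic r0).indicator 1 p.1) := by ring
      rw [h2, h1]
      by_cases hb : p.2 ∈ B t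
      · by_cases ha : p.2 ∈ A <;> simp [hb, ha]
      · rw [e1_off Ψ B t p hb]
        simp
    have j1 := weak hHAT hTT hBK1 hQ hΨ hB w1 hM k1 t _ u1
    have j2 := weak hHAT hTT hBK1 hQ hΨ hB w2 hε k2 t _ u2
    have j3 := weakc hHAT hTT hBK1 hQ hΨ hB hM hr0 hr1 k3 t _ u2
    have l1 : ∫ x, (B t).indicator ((B t ∩ A).indicator (1 : S → ℝ)) x ∂ν = ν.real (B t ∩ A) := by
      rw [Set.indicator_indicator, ← Set.inter_assoc, Set.inter_self, integral_indicator_one hBA]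
    have l2 : ∫ x, (B t).indicator ((B t \ A).indicator (1 : S → ℝ)) x ∂ν = ν.real (B t \ A) := by
      rw [Set.indicator_indicator, Set.inter_eq_right.2 Set.sdiff_subset,
        integral_indicator_one hBd]
    have hth := (memLp_thb hBK1 hQ hB (r0 ^ 2) t).1
    have l3 : ∫ x, (B t \ A).indicator (fun y => ε + M * thb Q ν (r0 ^ 2) B t y) x ∂ν =
        ε * ν.real (B t \ A) +
          M * ∫ x, (B t \ A).indicator 1 x * thb Q ν (r0 ^ 2) B t x ∂ν := by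
      rw [← integral_indicator_one hBd, ← integral_const_mul, ← integral_const_mul,
        ← integral_add (u2.int1.const_mul _)
          ((u2.int (hth.integrable one_le_two)).const_mul _)]
      refine integral_congr_ae (ae_of_all _ fun x => ?_)
      by_cases h : x ∈ B t \ A
      · simp [Set.indicator_of_mem h]
      · simp [Set.indicator_of_notMem h]
    rw [hsum, l3]
    rw [l1] at j1
    rw [l2] at j2
    linarith
  -- the bound for `e2`
  have b2 : ∀ t, ∫ p, e2 Q ν Ψ B t p ^ 2 ∂(nuh ν) ≤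
      ∫ p, p.1 ^ (2 * (t + 1)) * Ψ p ^ 2 ∂(nuh ν) := by
    intro t
    have h1 := strong hHAT hTT hBK1 hQ hΨ hB t _ Wt.one
    simpa using h1
  have b3 : ∀ t, ∫ p, ((B t).indicator 1 p.2 * Ψ p - Gst Q ν f B t p) ^ 2 ∂(nuh ν) ≤
      2 * (M * ν.real (B t ∩ A) +
      ∫ x, (B t \ A).indicator (fun y => ε + M * thb Q ν (r0 ^ 2) B t y) x ∂ν) +
      2 * ∫ p, p.1 ^ (2 * (t + 1)) * Ψ p ^ 2 ∂(nuh ν) := by
    intro t
    have he1 := (memLp_e1 hHAT hBK1 hQ hΨ hB t).integrable_sq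
    have he2 := (memLp_e2 hHAT hBK1 hQ hΨ hB t).integrable_sq
    have h1 : ∫ p, ((B t).indicator 1 p.2 * Ψ p - Gst Q ν f B t p) ^ 2 ∂(nuh ν) ≤
        ∫ p, (2 * e1 Q ν Ψ B t p ^ 2 + 2 * e2 Q ν Ψ B t p ^ 2) ∂(nuh ν) := by
      refine integral_mono_of_nonneg (ae_of_all _ fun p => sq_nonneg _)
        ((he1.const_mul 2).add (he2.const_mul 2)) ?_
      filter_upwards [decomp hHAT hBK1 hQ hR hB t] with p hp
      rw [hp]
      nlinarith [sq_nonneg (e1 Q ν Ψ B t p - e2 Q ν Ψ B t p)]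
    rw [integral_add (he1.const_mul 2) (he2.const_mul 2), integral_const_mul,
      integral_const_mul] at h1
    have := b1 t
    have := b2 t
    linarith
  have hI : ∀ i : ℕ, Integrable (fun p : ℝ × S => p.1 ^ (2 * i) * Ψ p ^ 2) (nuh ν) := by
    intro i
    refine hΨ.integrable_sq.bdd_mul (c := 1) (by fun_prop) ?_
    filter_upwards [ae01 ν] with p hp
    rw [norm_pow, Real.norm_of_nonneg hp.1.le]
    exact pow_le_one₀ hp.1.le hp.2.le
  refine (Finset.sum_le_sum fun t _ => b3 t).trans ?_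
  rw [Finset.sum_add_distrib, ← Finset.mul_sum, ← Finset.mul_sum]
  refine add_le_add_right (mul_le_mul_of_nonneg_left ?_ zero_le_two) _
  have h1 : ∫ p, Ψ p ^ 2 * ∑ i ∈ range N, p.1 ^ (2 * i) ∂(nuh ν) =
      ∑ i ∈ range N, ∫ p, p.1 ^ (2 * i) * Ψ p ^ 2 ∂(nuh ν) := by
    rw [← integral_finsetSum _ fun i _ => hI i]
    refine integral_congr_ae (ae_of_all _ fun p => ?_)
    simp only
    rw [Finset.mul_sum]
    exact Finset.sum_congr rfl fun i _ => mul_comm _ _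
  rw [h1]
  have h2 : ∀ i : ℕ, 0 ≤ ∫ p : ℝ × S, p.1 ^ (2 * i) * Ψ p ^ 2 ∂(nuh ν) := by
    intro i
    refine integral_nonneg fun p => ?_
    rw [pow_mul]
    positivity
  cases N with
  | zero => simp
  | succ n =>
    rw [Nat.add_sub_cancel, Finset.sum_range_succ' (fun i => ∫ p : ℝ × S, p.1 ^ (2 * i) * Ψ p ^ 2
      ∂(nuh ν))]
    have := h2 0
    linarith

end Pool.Agent.N717.ME
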